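import Pool.Agent.W528.HD.Stm
import Pool.Agent.W528.HD.Core

/-!
# The estimate of sums over curves `l x + f(t) = 0`
-/

set_option autoImplicit false

namespace Pool.Agent.W528.HD

open Finset Polynomial Pool.Agent.W528.HA Pool.Agent.W528.HB

section

variable {c : ℕ} [Fact c.Prime]

theorem two_est (hGN : GN) (hONE : ONE) (hGE : GE) (hDG : DG) (hDI : DI)
    {L : Type} [Field L] [Fintype L] [CharP L c]
    (w : MulChar L (PadicAlgCl c)) (ψ : AddChar L (PadicAlgCl c)) (hψ : ψ.IsPrimitive)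
    (hψc : ∀ y, ψ (y ^ c) = ψ y)
    (hw : ‖((c : ℕ) : PadicAlgCl c)‖ ≤ ‖gaussSum w⁻¹ ψ‖ ^ (c - 1)) {N F : ℕ}
    (hF : Fintype.card L = c ^ F) (hN : N ∣ Fintype.card L - 1) (hF0 : 0 < F)
    (hne : ∀ b, 1 ≤ b → b < N → (w ^ ((Fintype.card L - 1) / N)) ^ b ≠ 1)
    {D : ℕ} (hD : 1 ≤ D) (ι : Type) [Fintype ι] (l : ι → L) (f : ι → L[X])
    (hf : ∀ i, (f i).natDegree ≤ D) (b : ι → ℕ) (hb : ∀ i, 1 ≤ b i ∧ b i < N) (b0 : ℕ)
    (hb0 : b0 < N) :
    ‖∑ x : L, ∑ t : L, (if b0 = 0 then 1 else ((w ^ ((Fintype.card L - 1) / N)) ^ b0) t)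
        * ∏ i, ((w ^ ((Fintype.card L - 1) / N)) ^ b i) (l i * x + (f i).eval t)‖ ^ (D * N)
        * ‖((c : ℕ) : PadicAlgCl c)‖ ^ (D * ∑ i, ∑ e ∈ range F, (b i * c ^ e) % N
          + ∑ e ∈ range F, (b0 * c ^ e) % N)
      ≤ ‖((c : ℕ) : PadicAlgCl c)‖ ^ (F * (D + 1) * N) := by
  classical
  set T := w ^ ((Fintype.card L - 1) / N) with hT
  set ρ := ‖((c : ℕ) : PadicAlgCl c)‖ with hρ
  set q := ‖((Fintype.card L : ℕ) : PadicAlgCl c)‖ with hq
  have hq0 : 0 < q := norm_card_pos (c := c) (L := L)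
  obtain ⟨Y, lam0, hY0, hl0, hYl, hlam, hB⟩ : ∃ Y lam0 : ℝ, 0 ≤ Y ∧ 0 ≤ lam0 ∧ Y * lam0 = q ∧
      ρ ^ (∑ e ∈ range F, (b0 * c ^ e) % N) ≤ lam0 ^ N ∧
      ∀ g : L[X], g.natDegree ≤ D →
        ‖∑ t : L, (if b0 = 0 then 1 else (T ^ b0) t) * ψ (g.eval t)‖ ^ D ≤ Y := by
    by_cases h0 : b0 = 0
    · refine ⟨q, 1, hq0.le, zero_le_one, mul_one q, ?_, ?_⟩
      · simp [h0]
      · intro g hg
        simp only [h0, if_true, one_mul]
        exact (hONE c L ψ hψ D hD g hg).1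
    · refine ⟨‖gaussSum (T ^ b0) ψ‖, ‖gaussSum (T ^ b0)⁻¹ ψ‖, norm_nonneg _, norm_nonneg _,
        (hGN c L ψ hψ).2 _ (hne b0 (Nat.one_le_iff_ne_zero.mpr h0) hb0), ?_, ?_⟩
      · exact norm_gauss hDG hDI w ψ hψ hψc hw hF hN hF0 b0 hb0
      · intro g hg
        simp only [h0, if_false]
        exact (hONE c L ψ hψ D hD g hg).2 _ (hne b0 (Nat.one_le_iff_ne_zero.mpr h0) hb0)
  set B := Y ^ ((D : ℝ)⁻¹) with hBdef
  have hD0 : D ≠ 0 := by omega
  have hB0 : 0 ≤ B := Real.rpow_nonneg hY0 _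
  have hBD : B ^ D = Y := by
    rw [hBdef, ← Real.rpow_natCast, ← Real.rpow_mul hY0,
      inv_mul_cancel₀ (by exact_mod_cast hD0), Real.rpow_one]
  set X := ‖∑ x : L, ∑ t : L, (if b0 = 0 then 1 else (T ^ b0) t)
        * ∏ i, (T ^ b i) (l i * x + (f i).eval t)‖ with hX
  set P := ∏ i, ‖gaussSum (T ^ b i)⁻¹ ψ‖ with hP
  have hX0 : 0 ≤ X := norm_nonneg _
  have hP0 : 0 ≤ P := prod_nonneg fun i _ => norm_nonneg _
  have h1 : P * X ≤ q * B := by
    refine hGE c L ψ hψ D ι l f hf (fun i => T ^ b i) (fun i => hne (b i) (hb i).1 (hb i).2)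
      (fun t => if b0 = 0 then 1 else (T ^ b0) t) B hB0 ?_
    intro g hg
    have := hB g hg
    rw [← hBD] at this
    exact le_of_pow_le_pow_left₀ hD0 hB0 this
  have h2 : (P * X) ^ D * lam0 ≤ q ^ (D + 1) := by
    calc (P * X) ^ D * lam0 ≤ (q * B) ^ D * lam0 :=
          mul_le_mul_of_nonneg_right (pow_le_pow_left₀ (mul_nonneg hP0 hX0) h1 D) hl0
      _ = q ^ D * (Y * lam0) := by rw [mul_pow, hBD]; ring
      _ = q ^ (D + 1) := by rw [hYl, pow_succ]
  have h3 : ρ ^ (∑ i, ∑ e ∈ range F, (b i * c ^ e) % N) ≤ P ^ N := by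
    rw [← prod_pow_eq_pow_sum, hP, ← prod_pow]
    apply prod_le_prod
    · intro i _
      exact pow_nonneg (norm_nonneg _) _
    · intro i _
      exact norm_gauss hDG hDI w ψ hψ hψc hw hF hN hF0 (b i) (hb i).2
  have hρ0 : 0 ≤ ρ := norm_nonneg _
  have h4 : q = ρ ^ F := by
    rw [hq, hF]
    push_cast
    rw [norm_pow]
  calc X ^ (D * N) * ρ ^ (D * ∑ i, ∑ e ∈ range F, (b i * c ^ e) % N
          + ∑ e ∈ range F, (b0 * c ^ e) % N)
      = X ^ (D * N) * ((ρ ^ (∑ i, ∑ e ∈ range F, (b i * c ^ e) % N)) ^ D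
          * ρ ^ (∑ e ∈ range F, (b0 * c ^ e) % N)) := by
        have h9 : ρ ^ (D * ∑ i, ∑ e ∈ range F, (b i * c ^ e) % N)
            = (ρ ^ (∑ i, ∑ e ∈ range F, (b i * c ^ e) % N)) ^ D := by
          rw [mul_comm D, pow_mul]
        rw [pow_add, h9]
    _ ≤ X ^ (D * N) * ((P ^ N) ^ D * lam0 ^ N) := by
        apply mul_le_mul_of_nonneg_left _ (pow_nonneg hX0 _)
        exact mul_le_mul (pow_le_pow_left₀ (pow_nonneg hρ0 _) h3 D) hlam (pow_nonneg hρ0 _)
          (pow_nonneg (pow_nonneg hP0 _) _)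
    _ = ((P * X) ^ D * lam0) ^ N := by
        rw [mul_pow, mul_pow, mul_pow, ← pow_mul, ← pow_mul, ← pow_mul, mul_comm N D]
        ring
    _ ≤ (q ^ (D + 1)) ^ N := pow_le_pow_left₀ (mul_nonneg (pow_nonneg (mul_nonneg hP0 hX0) _) hl0)
        h2 N
    _ = ρ ^ (F * (D + 1) * N) := by rw [h4, ← pow_mul, ← pow_mul, ← mul_assoc]

end

/-- The sum over `(x, t) ∈ L²` of the value at `∏ (l_i x + f_i(t)) ^ e_i * t ^ e0` of the character
of order `N` of `L` belonging to `z ↦ μ`. -/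
noncomputable def gSum (L : Type) [Field L] [Fintype L] (R : Type) [CommRing R] {ι : Type}
    [Fintype ι] (N : ℕ) (l : ι → L) (f : ι → L[X]) (e : ι → ℕ) (e0 : ℕ) (z : L) (μ : R) : R :=
  ∑ x : L, ∑ t : L, kv N z μ
    (((∏ i, (l i * x + (f i).eval t) ^ e i) * t ^ e0) ^ ((Fintype.card L - 1) / N))

lemma map_gSum {L : Type} [Field L] [Fintype L] {R R' : Type} [CommRing R] [CommRing R']
    {ι : Type} [Fintype ι] (g : R →+* R') (N : ℕ) (l : ι → L) (f : ι → L[X]) (e : ι → ℕ) (e0 : ℕ)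
    (z : L) (μ : R) : g (gSum L R N l f e e0 z μ) = gSum L R' N l f e e0 z (g μ) := by
  unfold gSum
  rw [map_sum]
  refine sum_congr rfl fun x _ => ?_
  rw [map_sum]
  exact sum_congr rfl fun t _ => map_kv g N z μ _

theorem gSum_eq {N : ℕ} (hN : 2 ≤ N) (L : Type) [Field L] [Fintype L] {R : Type} [CommRing R]
    (T : MulChar L R) (hT : T ^ N = 1) {z : L} {ω : R}
    (hTz : ∀ (b : ℕ) (y : L), 1 ≤ b → T y ^ b = kv N z (ω ^ b) (y ^ ((Fintype.card L - 1) / N)))
    {ι : Type} [Fintype ι] (l : ι → L) (f : ι → L[X]) (e : ι → ℕ) (he : ∀ i, e i < N) (e0 : ℕ)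
    (he0 : e0 < N) {j : ℕ} (hj : j.Coprime N) :
    gSum L R N l f e e0 z (ω ^ j)
      = ∑ x : L, ∑ t : L, (if (j * e0) % N = 0 then 1 else (T ^ ((j * e0) % N)) t)
        * ∏ i : {i // e i ≠ 0}, (T ^ ((j * e i.1) % N)) (l i.1 * x + (f i.1).eval t) := by
  classical
  have hj1 : 1 ≤ j := by
    rcases Nat.eq_zero_or_pos j with h | h
    · rw [h, Nat.coprime_zero_left] at hj
      omega
    · exact h
  unfold gSum
  refine sum_congr rfl fun x _ => sum_congr rfl fun t _ => ?_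
  rw [← hTz j _ hj1, map_mul, mul_pow, map_prod, ← prod_pow]
  rw [prod_congr rfl fun i _ => factor T hT hj (he i) (l i * x + (f i).eval t)]
  rw [factor T hT hj he0 t]
  rw [prod_ite, prod_const_one, one_mul]
  rw [← prod_subtype (univ.filter fun i => ¬ e i = 0) (p := fun i => e i ≠ 0)
    (by intro i; simp) (fun i => (T ^ ((j * e i) % N)) (l i * x + (f i).eval t))]
  rw [mul_comm]
  congr 1
  by_cases h0 : e0 = 0
  · rw [if_pos h0, if_pos (by rw [h0, mul_zero, Nat.zero_mod])]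
  · rw [if_neg h0, if_neg]
    intro h
    have h1 : N ∣ j * e0 := Nat.dvd_of_mod_eq_zero h
    have h2 : N ∣ e0 := (Nat.Coprime.symm hj).dvd_of_dvd_mul_left h1
    exact absurd (Nat.le_of_dvd (Nat.pos_of_ne_zero h0) h2) (by omega)

section

variable {c : ℕ} [Fact c.Prime]

theorem g_est (hGN : GN) (hONE : ONE) (hGE : GE)
    {k : Type} [Field k] [CharP k c] {R : Subring (PadicAlgCl c)} {res : R →+* k}
    (hR : IsRes c R res) {N : ℕ} (hN : 2 ≤ N) {F n : ℕ} (hF0 : 0 < F) (hn : 0 < n)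
    (hNf : N ∣ c ^ F - 1)
    (L : Type) [Field L] [Fintype L] [CharP L c] (hcard : Fintype.card L = c ^ (F * n))
    (eL : L →+* k) {z : L} (hz : IsPrimitiveRoot z N) {Ω : PadicAlgCl c}
    (hΩ : IsPrimitiveRoot Ω N) (hΩz : ∃ h : Ω ∈ R, res ⟨Ω, h⟩ = eL z)
    {D : ℕ} (hD : 1 ≤ D) {ι : Type} [Fintype ι] (l : ι → L) (f : ι → L[X])
    (hf : ∀ i, (f i).natDegree ≤ D) (e : ι → ℕ) (he : ∀ i, e i < N) (e0 : ℕ) (he0 : e0 < N)
    {j : ℕ} (hj : j.Coprime N)
    (hjd : D * ∑ i, ∑ s ∈ range F, (j * e i * c ^ s) % N + ∑ s ∈ range F, (j * e0 * c ^ s) % N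
      < F * N) :
    ‖gSum L (PadicAlgCl c) N l f e e0 z (Ω ^ j)‖ ^ (D * N)
      ≤ ‖((Fintype.card L : ℕ) : PadicAlgCl c)‖ ^ (1 * (D * N))
        * ‖((c : ℕ) : PadicAlgCl c)‖ ^ n := by
  classical
  have hDG : DG := Pool.Agent.W883.HB.DG.main Pool.Agent.W135.HB.SA.main
  have hDI : DI := Pool.Agent.W563.HB.DI.main
  have hAY : AY := Pool.Agent.W271.HB.AY.main
  have hGO : GO := Pool.Agent.W540.HB.GO.main
  have hTT : TT := Pool.Agent.W400.HB.TT.main
  have hc1 : 1 ≤ c := (Fact.out : c.Prime).one_lt.le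
  have hNk : (N : k) ≠ 0 := natCast_ne_zero_of_dvd hNf hF0
  obtain ⟨w, hw⟩ := hTT c k R res hR L eL
  obtain ⟨⟨ψ, hψ⟩, hprop⟩ := hAY c L
  obtain ⟨hψ1, hψ2⟩ := hprop ψ hψ
  have hgo := hGO c k R res hR L eL w hw ψ hψ
  have hd := dvd_card_of_root hz (by omega)
  have hTz := fun (b : ℕ) (y : L) (hb : 1 ≤ b) =>
    kvT hw (by omega) hNk hz hΩ.pow_eq_one hΩz b y hb
  set T := w ^ ((Fintype.card L - 1) / N) with hT
  have hTN : T ^ N = 1 := T_pow_card w hd
  have hne : ∀ b, 1 ≤ b → b < N → T ^ b ≠ 1 := by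
    intro b hb hbN h
    obtain ⟨y, hy0, hy⟩ := exists_pow_eq' L (by omega) hd hz.pow_eq_one
    have h1 := hTz 1 y le_rfl
    rw [pow_one, pow_one, hy] at h1
    have h2 : kv N z Ω z = Ω := by
      unfold kv
      rw [sum_eq_single 1]
      · rw [pow_one, if_pos rfl, pow_one]
      · intro i hi hi1
        rw [mem_range] at hi
        rw [if_neg]
        intro h
        apply hi1
        apply hz.pow_inj hi (by omega)
        rw [pow_one]
        exact h.symm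
      · intro h
        exact absurd (mem_range.mpr (by omega)) h
    rw [h2] at h1
    have h3 : (T ^ b) y = (1 : MulChar L (PadicAlgCl c)) y := by rw [h]
    rw [MulChar.pow_apply' T (by omega), h1, MulChar.one_apply (isUnit_iff_ne_zero.mpr hy0)] at h3
    exact hΩ.pow_ne_one_of_pos_of_lt (by omega) hbN h3
  rw [gSum_eq hN L T hTN hTz l f e he e0 he0 hj]
  have hest := two_est hGN hONE hGE hDG hDI w ψ hψ1 hψ2 hgo hcard hd (Nat.mul_pos hF0 hn) hne hD
    {i // e i ≠ 0} (fun i => l i.1) (fun i => f i.1) (fun i => hf i.1)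
    (fun i => (j * e i.1) % N) (by
      intro i
      refine ⟨?_, Nat.mod_lt _ (by omega)⟩
      rw [Nat.one_le_iff_ne_zero]
      intro h
      have h1 : N ∣ j * e i.1 := Nat.dvd_of_mod_eq_zero h
      have h2 : N ∣ e i.1 := (Nat.Coprime.symm hj).dvd_of_dvd_mul_left h1
      exact absurd (Nat.le_of_dvd (Nat.pos_of_ne_zero i.2) h2) (by have := he i.1; omega))
    ((j * e0) % N) (Nat.mod_lt _ (by omega))
  -- the exponent
  have hper : ∀ b : ℕ, ∑ s ∈ range (F * n), ((j * b) % N * c ^ s) % N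
      = n * ∑ s ∈ range F, (j * b * c ^ s) % N := by
    intro b
    rw [sum_period (by omega) hNf hc1]
    congr 1
    refine sum_congr rfl fun s _ => ?_
    exact (Nat.mod_modEq (j * b) N).mul_right (c ^ s)
  have h1 : ∑ i : {i // e i ≠ 0}, ∑ s ∈ range (F * n), ((j * e i.1) % N * c ^ s) % N
      = n * ∑ i, ∑ s ∈ range F, (j * e i * c ^ s) % N := by
    rw [mul_sum, sum_congr rfl fun i _ => hper (e i.1)]
    rw [← sum_subtype (univ.filter fun i => e i ≠ 0) (p := fun i => e i ≠ 0)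
      (by intro i; simp) (fun i => n * ∑ s ∈ range F, (j * e i * c ^ s) % N)]
    rw [sum_filter]
    refine sum_congr rfl fun i _ => ?_
    by_cases h : e i = 0
    · rw [h, if_neg (by simp)]
      simp
    · rw [if_pos h]
  rw [h1, hper e0] at hest
  set A := ∑ i, ∑ s ∈ range F, (j * e i * c ^ s) % N with hA
  set A0 := ∑ s ∈ range F, (j * e0 * c ^ s) % N with hA0
  set ρ := ‖((c : ℕ) : PadicAlgCl c)‖ with hρ
  have hρ0 : 0 < ρ := by
    rw [hρ, norm_pos_iff]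
    exact_mod_cast (Fact.out : c.Prime).ne_zero
  have hρ1 : ρ ≤ 1 := norm_natCast_le c
  have hcardn : ‖((Fintype.card L : ℕ) : PadicAlgCl c)‖ = ρ ^ (F * n) := by
    rw [hcard]
    push_cast
    rw [norm_pow]
  rw [hcardn, ← pow_mul ρ, ← pow_add ρ]
  have h3 : (D * (n * A) + n * A0) + (F * n * (1 * (D * N)) + n) ≤ F * n * (D + 1) * N := by
    have h4 : D * A + A0 + 1 ≤ F * N := hjd
    calc (D * (n * A) + n * A0) + (F * n * (1 * (D * N)) + n)
        = n * (D * A + A0 + 1) + F * n * (D * N) := by ring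
      _ ≤ n * (F * N) + F * n * (D * N) := Nat.add_le_add_right (Nat.mul_le_mul_left n h4) _
      _ = F * n * (D + 1) * N := by ring
  have h5 : ρ ^ (F * n * (D + 1) * N) ≤ ρ ^ (F * n * (1 * (D * N)) + n)
      * ρ ^ (D * (n * A) + n * A0) := by
    rw [← pow_add]
    apply pow_le_pow_of_le_one hρ0.le hρ1
    rw [add_comm]
    exact h3
  exact le_of_mul_le_mul_right (hest.trans h5) (pow_pos hρ0 _)

theorem g_nonvanish (hGN : GN) (hONE : ONE) (hGE : GE) {N : ℕ} (hN : 2 ≤ N)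
    (κ : Type) [Field κ] [Fintype κ] [CharP κ c] {F : ℕ} (hF : Fintype.card κ = c ^ F)
    {z : κ} (hz : IsPrimitiveRoot z N) {E : Type} [Field E] [CharZero E] [IsAlgClosed E]
    {μ : E} (hμ : IsPrimitiveRoot μ N)
    {D : ℕ} (hD : 1 ≤ D) {ι : Type} [Fintype ι] (l : ι → κ) (f : ι → κ[X])
    (hf : ∀ i, (f i).natDegree ≤ D) (e : ι → ℕ) (he : ∀ i, e i < N) (e0 : ℕ) (he0 : e0 < N)
    {j : ℕ} (hj : j.Coprime N)
    (hjd : D * ∑ i, ∑ s ∈ range F, (j * e i * c ^ s) % N + ∑ s ∈ range F, (j * e0 * c ^ s) % N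
      < F * N) (A : Multiset E)
    (hA : ∀ (L : Type) [Field L] [Fintype L] [Algebra κ L],
      (A.map fun x => x ^ Module.finrank κ L).sum
        = gSum L E N (fun i => algebraMap κ L (l i)) (fun i => (f i).map (algebraMap κ L)) e e0
          (algebraMap κ L z) μ)
    (x : E) (hx : x ∈ A) (M : ℕ) (hM : 0 < M) :
    x ^ M ≠ (Fintype.card κ : E) ^ M := by
  classical
  intro hxM
  have hF0 : 0 < F := by
    rcases Nat.eq_zero_or_pos F with h | h
    · rw [h, pow_zero] at hF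
      have := Fintype.one_lt_card (α := κ)
      omega
    · exact h
  have hNf : N ∣ c ^ F - 1 := by
    rw [← hF]
    exact dvd_card_of_root hz (by omega)
  have hq : (Fintype.card κ : E) ≠ 0 := by exact_mod_cast Fintype.card_ne_zero
  have hx0 : x ≠ 0 := by
    rintro rfl
    rw [zero_pow hM.ne'] at hxM
    exact pow_ne_zero M hq hxM.symm
  set B : Multiset E := A.filter (· ≠ 0) with hB
  have hBsum : ∀ n, 1 ≤ n → ∑ y ∈ B.toFinset, ((B.count y : ℕ) : E) * y ^ n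
      = (A.map fun x => x ^ n).sum := by
    intro n hn
    have h1 : (B.map fun y => y ^ n).sum = ∑ y ∈ B.toFinset, ((B.count y : ℕ) : E) * y ^ n := by
      rw [Finset.sum_multiset_map_count]
      exact sum_congr rfl fun y _ => by rw [nsmul_eq_mul]
    rw [← h1, hB]
    have h3 : ∀ A' : Multiset E, ((A'.filter (· ≠ 0)).map (fun x => x ^ n)).sum
        = (A'.map fun x => x ^ n).sum := by
      intro A'
      induction A' using Multiset.induction_on with
      | empty => simp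
      | cons y A' ih =>
        rw [Multiset.map_cons, Multiset.sum_cons, ← ih]
        by_cases hy : y = 0
        · rw [Multiset.filter_cons_of_neg (p := fun x : E => x ≠ 0) A' (fun h => h hy), hy,
            zero_pow (by omega), zero_add]
        · rw [Multiset.filter_cons_of_pos (p := fun x : E => x ≠ 0) A' hy, Multiset.map_cons,
            Multiset.sum_cons]
    exact h3 A
  refine core hN κ hF 1 (D * N) (Nat.mul_pos (by omega) (by omega)) hj hz hμ
    (fun L _ _ _ R _ ω => gSum L R N (fun i => algebraMap κ L (l i))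
      (fun i => (f i).map (algebraMap κ L)) e e0 (algebraMap κ L z) ω)
    (fun L _ _ _ R R' _ _ g y => map_gSum g N _ _ e e0 _ y) ?_ B.toFinset (fun y => B.count y) ?_ ?_
    x ?_ M hM ?_
  · intro k _ _ R res hR n hn L _ _ _ _ hcard eL Ω hΩ hΩz
    exact g_est hGN hONE hGE hR hN hF0 hn hNf L hcard eL
      (hz.map_of_injective (algebraMap κ L).injective) hΩ hΩz hD _ _
      (fun i => (natDegree_map_le).trans (hf i)) e he e0 he0 hj hjd
  · intro y hy
    rw [Multiset.mem_toFinset] at hy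
    refine ⟨?_, Multiset.count_pos.mpr hy⟩
    rw [hB, Multiset.mem_filter] at hy
    exact hy.2
  · intro L _ _ _
    have hL : 1 ≤ Module.finrank κ L := by
      have : Module.Finite κ L := .of_finite
      exact Module.finrank_pos
    rw [hBsum _ hL, hA L]
  · rw [Multiset.mem_toFinset, hB, Multiset.mem_filter]
    exact ⟨hx, hx0⟩
  · rw [hxM, pow_one]

end

end Pool.Agent.W528.HD
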