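import Pool.Agent.W528.HD.Est
import Pool.Agent.W528.HC.Non2

/-!
# The L-functions of superelliptic Jacobians with polynomial branch points
-/

set_option autoImplicit false

namespace Pool.Agent.W528.HD

open Finset Polynomial Pool.Agent.W528.HA

/-- `∏_{x ∈ A} (1 - x T)` is the L-function of the character with exponents `(j, s)`: for every
finite extension `L` of `κ`, of degree `n`, the sum of the `x ^ n` is `polySum`. -/
def IsPolyL (κ : Type) [Field κ] [Fintype κ] {E : Type} [Field E] (p r : ℕ) {m : ℕ}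
    (f : Fin m → κ[X]) (a : Fin m → ℕ) (z : κ) (μ : E) (j s : ℕ) (A : Multiset E) : Prop :=
  ∀ (L : Type) [Field L] [Fintype L] [Algebra κ L],
    (A.map fun x => x ^ Module.finrank κ L).sum
      = polySum L E p r (fun i => (f i).map (algebraMap κ L)) a (algebraMap κ L z) μ j s

/-- `∏_{x ∈ A} (1 - x T)` is the L-function of the character with exponents `(j, s)`: for every
finite extension `L` of `κ`, of degree `n`, the sum of the `x ^ n` is `polySum2`. -/
def IsPolyL2 (κ : Type) [Field κ] [Fintype κ] {E : Type} [Field E] (p r : ℕ) {m n : ℕ}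
    (f : Fin m → κ[X]) (a : Fin m → ℕ) (h : Fin n → κ[X]) (b : Fin n → ℕ) (z : κ) (μ : E)
    (j s : ℕ) (A : Multiset E) : Prop :=
  ∀ (L : Type) [Field L] [Fintype L] [Algebra κ L],
    (A.map fun x => x ^ Module.finrank κ L).sum
      = polySum2 L E p r (fun i => (f i).map (algebraMap κ L)) a
        (fun l => (h l).map (algebraMap κ L)) b (algebraMap κ L z) μ j s

lemma polySum_eq {L : Type} [Field L] [Fintype L] {R : Type} [CommRing R] (p r : ℕ) {m : ℕ}
    (f : Fin m → L[X]) (a : Fin m → ℕ) (z : L) (μ : R) (j s : ℕ) :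
    polySum L R p r f a z μ j s
      = gSum L R (p * r) (fun _ : Fin m => (1 : L)) (fun i => -(f i))
        (fun i => r * (j * a i % p)) (p * s) z μ := by
  unfold polySum gSum
  refine sum_congr rfl fun x _ => sum_congr rfl fun t _ => ?_
  simp only [one_mul, eval_neg, sub_eq_add_neg]

lemma polySum2_eq {L : Type} [Field L] [Fintype L] {R : Type} [CommRing R] (p r : ℕ) {m n : ℕ}
    (f : Fin m → L[X]) (a : Fin m → ℕ) (h : Fin n → L[X]) (b : Fin n → ℕ) (z : L) (μ : R)
    (j s : ℕ) :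
    polySum2 L R p r f a h b z μ j s
      = gSum L R (p * r) (Sum.elim (fun _ : Fin m => (1 : L)) (fun _ : Fin n => 0))
        (Sum.elim (fun i => -(f i)) h)
        (Sum.elim (fun i => r * (j * a i % p)) (fun l => p * (s * b l % r))) 0 z μ := by
  unfold polySum2 gSum
  refine sum_congr rfl fun x _ => sum_congr rfl fun t _ => ?_
  rw [Fintype.prod_sum_type]
  simp only [Sum.elim_inl, Sum.elim_inr, one_mul, eval_neg, sub_eq_add_neg, zero_mul, zero_add,
    pow_zero, mul_one]

lemma eval_lPoly_ne {E : Type} [Field E] (p r : ℕ) (A : ℕ → ℕ → Multiset E) {q : E} (hq : q ≠ 0)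
    (h : ∀ j s, 0 < j → j < p → s < r → ∀ x ∈ A j s, ∀ M : ℕ, 0 < M → x ^ M ≠ q ^ M)
    (ζ : E) (M : ℕ) (hM : 0 < M) (hζ : ζ ^ M = 1) :
    (Pool.Agent.W528.HC.lPoly p r A).eval (ζ * q⁻¹) ≠ 0 := by
  classical
  intro h0
  unfold Pool.Agent.W528.HC.lPoly at h0
  rw [eval_prod, prod_eq_zero_iff] at h0
  obtain ⟨j, hj, h0⟩ := h0
  rw [eval_prod, prod_eq_zero_iff] at h0
  obtain ⟨s, hs, h0⟩ := h0
  rw [eval_multiset_prod, Multiset.prod_eq_zero_iff, Multiset.map_map, Multiset.mem_map] at h0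
  obtain ⟨x, hx, h0⟩ := h0
  rw [mem_Ico] at hj
  simp only [Function.comp, eval_sub, eval_one, eval_mul, eval_C, eval_X] at h0
  have h1 : x * ζ = q := by
    have h2 : x * (ζ * q⁻¹) = 1 := (sub_eq_zero.mp h0).symm
    field_simp at h2
    linear_combination h2
  apply h j s hj.1 hj.2 (mem_range.mp hs) x hx M hM
  rw [← h1, mul_pow, hζ, mul_one]

theorem fin_poly (hGN : GN) (hONE : ONE) (hGE : GE) (hAP : AP) (hPE : PE)
    {p r c D : ℕ} (hp : p.Prime) (hr : 0 < r) (hrp : r.Coprime p)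
    [Fact c.Prime] (hcr : ¬ c ∣ r) (hpc : p ∣ c - 1)
    (κ : Type) [Field κ] [Fintype κ] [CharP κ c]
    {z : κ} (hz : IsPrimitiveRoot z (p * r)) {E : Type} [Field E] [CharZero E] [IsAlgClosed E]
    {μ : E} (hμ : IsPrimitiveRoot μ (p * r)) {m : ℕ} (hD : 1 ≤ D) (f : Fin m → κ[X])
    (hf : ∀ i, (f i).natDegree ≤ D)
    (a : Fin m → ℕ) (ha : ∀ i, 0 < a i) (ha2 : 2 * D * ∑ i, a i < p)
    (A : ℕ → ℕ → Multiset E)
    (hA : ∀ j s, 0 < j → j < p → s < r → IsPolyL κ p r f a z μ j s (A j s)) :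
    (∀ (L : Type) [Field L] [Fintype L] [Algebra κ L],
      ∑ j ∈ Ico 1 p, ∑ s ∈ range r, ((A j s).map fun x => x ^ Module.finrank κ L).sum
        = (polyPoints L p r (fun i => (f i).map (algebraMap κ L)) a : E)
          - (Fintype.card L : E) ^ 2) ∧
    ∀ (ζ : E) (M : ℕ), 0 < M → ζ ^ M = 1 →
      (Pool.Agent.W528.HC.lPoly p r A).eval (ζ * (Fintype.card κ : E)⁻¹) ≠ 0 := by
  classical
  have hc : c.Prime := Fact.out
  obtain ⟨F, hF0, hF⟩ := FiniteField.card κ c
  have hF0' : 0 < (F : ℕ) := F.2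
  have hN : 2 ≤ p * r := le_trans hp.two_le (Nat.le_mul_of_pos_right p hr)
  refine ⟨?_, ?_⟩
  · intro L _ _ _
    have hzL : IsPrimitiveRoot (algebraMap κ L z) (p * r) :=
      hz.map_of_injective (algebraMap κ L).injective
    have hap : ∀ i, 0 < a i ∧ a i < p := by
      intro i
      refine ⟨ha i, ?_⟩
      have h1 := single_le_sum (f := a) (fun _ _ => Nat.zero_le _) (mem_univ i)
      have h2 : ∑ i, a i ≤ 2 * D * ∑ i, a i := Nat.le_mul_of_pos_left _ (by omega)
      omega
    rw [← hPE L p r (algebraMap κ L z) hp hr hrp hzL E μ hμ m _ a hap]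
    refine sum_congr rfl fun j hj => sum_congr rfl fun s hs => ?_
    rw [mem_Ico] at hj
    exact hA j s hj.1 hj.2 (mem_range.mp hs) L
  · refine eval_lPoly_ne p r A (by exact_mod_cast Fintype.card_ne_zero) ?_
    intro j s hj0 hjp hs x hx M hM
    obtain ⟨hpos, j', hj', hsum⟩ := hAP p r c F D hp hr hrp hc hcr hpc hF0' m a ha ha2 hD j s hj0
      hjp hs
    refine g_nonvanish hGN hONE hGE hN κ hF hz hμ hD (fun _ : Fin m => (1 : κ)) (fun i => -(f i))
      (fun i => by rw [natDegree_neg]; exact hf i) (fun i => r * (j * a i % p)) ?_ (p * s) ?_ hj'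
      hsum (A j s) ?_ x hx M hM
    · intro i
      rw [mul_comm p r]
      exact Nat.mul_lt_mul_of_pos_left (Nat.mod_lt _ hp.pos) hr
    · exact Nat.mul_lt_mul_of_pos_left hs hp.pos
    · intro L _ _ _
      rw [hA j s hj0 hjp hs L, polySum_eq]
      simp only [Polynomial.map_neg, map_one]

theorem fin_poly2 (hGN : GN) (hONE : ONE) (hGE : GE) (hAQ : AQ) (hPF : PF)
    {p r c D : ℕ} (hp : p.Prime) (hr : r.Prime) (hpr : p ≠ r)
    [Fact c.Prime] (hc : p * r ∣ c - 1)
    (κ : Type) [Field κ] [Fintype κ] [CharP κ c]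
    {z : κ} (hz : IsPrimitiveRoot z (p * r)) {E : Type} [Field E] [CharZero E] [IsAlgClosed E]
    {μ : E} (hμ : IsPrimitiveRoot μ (p * r)) {m n : ℕ} (hD : 1 ≤ D) (f : Fin m → κ[X])
    (hf : ∀ i, (f i).natDegree ≤ D) (a : Fin m → ℕ) (h : Fin n → κ[X])
    (hh : ∀ l, (h l).natDegree ≤ D) (b : Fin n → ℕ) (ha : ∀ i, 0 < a i) (hb : ∀ l, 0 < b l)
    (hab : D * (r * ∑ i, a i + p * ∑ l, b l) < p * r)
    (A : ℕ → ℕ → Multiset E)
    (hA : ∀ j s, 0 < j → j < p → s < r → IsPolyL2 κ p r f a h b z μ j s (A j s)) :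
    (∀ (L : Type) [Field L] [Fintype L] [Algebra κ L],
      ∑ j ∈ Ico 1 p, ∑ s ∈ range r, ((A j s).map fun x => x ^ Module.finrank κ L).sum
        = (totalPts L p r (fun i => (f i).map (algebraMap κ L)) a
            (fun l => (h l).map (algebraMap κ L)) b : E)
          - (Fintype.card L : E) * (basePts L r (fun l => (h l).map (algebraMap κ L)) b : E)) ∧
    ∀ (ζ : E) (M : ℕ), 0 < M → ζ ^ M = 1 →
      (Pool.Agent.W528.HC.lPoly p r A).eval (ζ * (Fintype.card κ : E)⁻¹) ≠ 0 := by
  classical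
  have hcp : c.Prime := Fact.out
  obtain ⟨F, hF0, hF⟩ := FiniteField.card κ c
  have hF0' : 0 < (F : ℕ) := F.2
  have hN : 2 ≤ p * r := le_trans hp.two_le (Nat.le_mul_of_pos_right p hr.pos)
  have hsum0 : r * ∑ i, a i + p * ∑ l, b l < p * r :=
    lt_of_le_of_lt (Nat.le_mul_of_pos_left _ (by omega)) hab
  refine ⟨?_, ?_⟩
  · intro L _ _ _
    have hzL : IsPrimitiveRoot (algebraMap κ L z) (p * r) :=
      hz.map_of_injective (algebraMap κ L).injective
    have hap : ∀ i, 0 < a i ∧ a i < p := by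
      intro i
      refine ⟨ha i, ?_⟩
      have h1 := single_le_sum (f := a) (fun _ _ => Nat.zero_le _) (mem_univ i)
      have h2 : r * a i < r * p := by
        calc r * a i ≤ r * ∑ i, a i := Nat.mul_le_mul_left r h1
          _ ≤ r * ∑ i, a i + p * ∑ l, b l := Nat.le_add_right _ _
          _ < p * r := hsum0
          _ = r * p := mul_comm _ _
      exact Nat.lt_of_mul_lt_mul_left h2
    have hbr : ∀ l, 0 < b l ∧ b l < r := by
      intro l
      refine ⟨hb l, ?_⟩
      have h1 := single_le_sum (f := b) (fun _ _ => Nat.zero_le _) (mem_univ l)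
      have h2 : p * b l < p * r := by
        calc p * b l ≤ p * ∑ l, b l := Nat.mul_le_mul_left p h1
          _ ≤ r * ∑ i, a i + p * ∑ l, b l := Nat.le_add_left _ _
          _ < p * r := hsum0
      exact Nat.lt_of_mul_lt_mul_left h2
    rw [← hPF L p r (algebraMap κ L z) hp hr hpr hzL E μ hμ m n _ a _ b hap hbr]
    refine sum_congr rfl fun j hj => sum_congr rfl fun s hs => ?_
    rw [mem_Ico] at hj
    exact hA j s hj.1 hj.2 (mem_range.mp hs) L
  · refine eval_lPoly_ne p r A (by exact_mod_cast Fintype.card_ne_zero) ?_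
    intro j s hj0 hjp hs x hx M hM
    obtain ⟨hpos, hpos2, j', hj', hsum⟩ := hAQ p r c F D hp hr hpr hcp hc hF0' m n a b ha hb hD
      hab j s hj0 hjp hs
    refine g_nonvanish hGN hONE hGE hN κ hF hz hμ hD
      (Sum.elim (fun _ : Fin m => (1 : κ)) (fun _ : Fin n => 0))
      (Sum.elim (fun i => -(f i)) h) ?_
      (Sum.elim (fun i => r * (j * a i % p)) (fun l => p * (s * b l % r))) ?_ 0 (by omega) hj'
      ?_ (A j s) ?_ x hx M hM
    · rintro (i | l)
      · rw [Sum.elim_inl, natDegree_neg]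
        exact hf i
      · exact hh l
    · rintro (i | l)
      · rw [Sum.elim_inl, mul_comm p r]
        exact Nat.mul_lt_mul_of_pos_left (Nat.mod_lt _ hp.pos) hr.pos
      · exact Nat.mul_lt_mul_of_pos_left (Nat.mod_lt _ hr.pos) hp.pos
    · rw [Fintype.sum_sum_type]
      simp only [Sum.elim_inl, Sum.elim_inr, mul_zero, zero_mul, Nat.zero_mod, sum_const_zero,
        add_zero]
      exact hsum
    · intro L _ _ _
      rw [hA j s hj0 hjp hs L, polySum2_eq]
      congr 1
      · funext i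
        rcases i with i | l
        · simp
        · simp
      · funext i
        rcases i with i | l
        · simp
        · simp

end Pool.Agent.W528.HD
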