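import Pool.Agent.W528.HC.Stm2

/-!
# Superelliptic curves with polynomial branch points: statements of the parts
-/

set_option autoImplicit false

namespace Pool.Agent.W528.HD

open Finset Polynomial Pool.Agent.W528.HA Pool.Agent.W528.HB

/-- Norms of Gauss sums. -/
def GN : Prop :=
  ∀ (c : ℕ) [Fact c.Prime] (L : Type) [Field L] [Fintype L] [CharP L c]
    (ψ : AddChar L (PadicAlgCl c)), ψ.IsPrimitive →
    ‖gaussSum (1 : MulChar L (PadicAlgCl c)) ψ‖ = 1 ∧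
    ∀ θ : MulChar L (PadicAlgCl c), θ ≠ 1 →
      ‖gaussSum θ ψ‖ * ‖gaussSum θ⁻¹ ψ‖ = ‖((Fintype.card L : ℕ) : PadicAlgCl c)‖

/-- The additive character in terms of Gauss sums. -/
def IN : Prop :=
  ∀ (c : ℕ) [Fact c.Prime] (L : Type) [Field L] [Fintype L] [CharP L c]
    (ψ : AddChar L (PadicAlgCl c)) (y : L), y ≠ 0 →
    ((Fintype.card L : ℕ) - 1 : PadicAlgCl c) * ψ y
      = ∑ᶠ η : MulChar L (PadicAlgCl c), gaussSum η⁻¹ ψ * η y

/-- Sums in one variable. -/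
def ONE : Prop :=
  ∀ (c : ℕ) [Fact c.Prime] (L : Type) [Field L] [Fintype L] [CharP L c]
    (ψ : AddChar L (PadicAlgCl c)), ψ.IsPrimitive → ∀ (D : ℕ), 1 ≤ D →
    ∀ g : L[X], g.natDegree ≤ D →
      ‖∑ t : L, ψ (g.eval t)‖ ^ D ≤ ‖((Fintype.card L : ℕ) : PadicAlgCl c)‖ ∧
      ∀ θ : MulChar L (PadicAlgCl c), θ ≠ 1 →
        ‖∑ t : L, θ t * ψ (g.eval t)‖ ^ D ≤ ‖gaussSum θ ψ‖

/-- Sums in two variables. -/
def GE : Prop :=
  ∀ (c : ℕ) [Fact c.Prime] (L : Type) [Field L] [Fintype L] [CharP L c]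
    (ψ : AddChar L (PadicAlgCl c)), ψ.IsPrimitive → ∀ (D : ℕ) (ι : Type) [Fintype ι]
    (l : ι → L) (f : ι → L[X]), (∀ i, (f i).natDegree ≤ D) →
    ∀ (χ : ι → MulChar L (PadicAlgCl c)), (∀ i, χ i ≠ 1) →
    ∀ (τ : L → PadicAlgCl c) (B : ℝ), 0 ≤ B →
    (∀ g : L[X], g.natDegree ≤ D → ‖∑ t : L, τ t * ψ (g.eval t)‖ ≤ B) →
    (∏ i, ‖gaussSum (χ i)⁻¹ ψ‖) * ‖∑ x : L, ∑ t : L, τ t * ∏ i, χ i (l i * x + (f i).eval t)‖
      ≤ ‖((Fintype.card L : ℕ) : PadicAlgCl c)‖ * B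

/-- The sum over `(x, t) ∈ L²` of the value at `∏ (x - f_i(t)) ^ (r (j a_i mod p)) * t ^ (p s)` of
the character of order `p r` of `L` belonging to `z ↦ μ`. -/
noncomputable def polySum (L : Type) [Field L] [Fintype L] (R : Type) [CommRing R] (p r : ℕ)
    {m : ℕ} (f : Fin m → L[X]) (a : Fin m → ℕ) (z : L) (μ : R) (j s : ℕ) : R :=
  ∑ x : L, ∑ t : L, kv (p * r) z μ
    (((∏ i, (x - (f i).eval t) ^ (r * (j * a i % p))) * t ^ (p * s))
      ^ ((Fintype.card L - 1) / (p * r)))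

/-- The number of points over `L` of the affine surface `y ^ p = ∏ (x - f_i(u ^ r)) ^ a_i`. -/
noncomputable def polyPoints (L : Type) [Field L] (p r : ℕ) {m : ℕ} (f : Fin m → L[X])
    (a : Fin m → ℕ) : ℕ :=
  Set.ncard {v : L × L × L | v.2.2 ^ p = ∏ i, (v.1 - (f i).eval (v.2.1 ^ r)) ^ a i}

/-- The sum of all character sums. -/
def PE : Prop :=
  ∀ (L : Type) [Field L] [Fintype L] (p r : ℕ) (z : L), p.Prime → 0 < r → r.Coprime p →
    IsPrimitiveRoot z (p * r) → ∀ (E : Type) [Field E] [CharZero E] (μ : E),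
    IsPrimitiveRoot μ (p * r) → ∀ (m : ℕ) (f : Fin m → L[X]) (a : Fin m → ℕ),
    (∀ i, 0 < a i ∧ a i < p) →
    ∑ j ∈ Ico 1 p, ∑ s ∈ range r, polySum L E p r f a z μ j s
      = (polyPoints L p r f a : E) - (Fintype.card L : E) ^ 2

/-- The arithmetic of the exponents. -/
def AP : Prop :=
  ∀ (p r c F D : ℕ), p.Prime → 0 < r → r.Coprime p → c.Prime → ¬ c ∣ r → p ∣ c - 1 → 0 < F →
    ∀ (m : ℕ) (a : Fin m → ℕ), (∀ i, 0 < a i) → 2 * D * ∑ i, a i < p → 1 ≤ D →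
    ∀ j s : ℕ, 0 < j → j < p → s < r →
      (∀ i, 0 < j * a i % p) ∧
      ∃ j' : ℕ, j'.Coprime (p * r) ∧
        D * ∑ i, ∑ e ∈ range F, (j' * (r * (j * a i % p)) * c ^ e) % (p * r)
          + ∑ e ∈ range F, (j' * (p * s) * c ^ e) % (p * r) < F * (p * r)

/-- The sum over `(x, t) ∈ L²` of the value at
`∏ (x - f_i(t)) ^ (r (j a_i mod p)) * ∏ h_l(t) ^ (p (s b_l mod r))` of the character of order
`p r` of `L` belonging to `z ↦ μ`. -/
noncomputable def polySum2 (L : Type) [Field L] [Fintype L] (R : Type) [CommRing R] (p r : ℕ)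
    {m n : ℕ} (f : Fin m → L[X]) (a : Fin m → ℕ) (h : Fin n → L[X]) (b : Fin n → ℕ) (z : L) (μ : R)
    (j s : ℕ) : R :=
  ∑ x : L, ∑ t : L, kv (p * r) z μ
    (((∏ i, (x - (f i).eval t) ^ (r * (j * a i % p)))
        * ∏ l, ((h l).eval t) ^ (p * (s * b l % r)))
      ^ ((Fintype.card L - 1) / (p * r)))

/-- The number of points `(t, u)` over `L` of the affine curve `u ^ r = ∏ h_l(t) ^ b_l`. -/
noncomputable def basePts (L : Type) [Field L] (r : ℕ) {n : ℕ} (h : Fin n → L[X])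
    (b : Fin n → ℕ) : ℕ :=
  Set.ncard {v : L × L | v.2 ^ r = ∏ l, ((h l).eval v.1) ^ b l}

/-- The number of points `((x, t), (u, y))` over `L` of the affine surface
`u ^ r = ∏ h_l(t) ^ b_l`, `y ^ p = ∏ (x - f_i(t)) ^ a_i`. -/
noncomputable def totalPts (L : Type) [Field L] (p r : ℕ) {m n : ℕ} (f : Fin m → L[X])
    (a : Fin m → ℕ) (h : Fin n → L[X]) (b : Fin n → ℕ) : ℕ :=
  Set.ncard {v : (L × L) × L × L | v.2.1 ^ r = ∏ l, ((h l).eval v.1.2) ^ b l ∧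
    v.2.2 ^ p = ∏ i, (v.1.1 - (f i).eval v.1.2) ^ a i}

/-- The sum of all character sums. -/
def PF : Prop :=
  ∀ (L : Type) [Field L] [Fintype L] (p r : ℕ) (z : L), p.Prime → r.Prime → p ≠ r →
    IsPrimitiveRoot z (p * r) → ∀ (E : Type) [Field E] [CharZero E] (μ : E),
    IsPrimitiveRoot μ (p * r) → ∀ (m n : ℕ) (f : Fin m → L[X]) (a : Fin m → ℕ) (h : Fin n → L[X])
    (b : Fin n → ℕ), (∀ i, 0 < a i ∧ a i < p) → (∀ l, 0 < b l ∧ b l < r) →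
    ∑ j ∈ Ico 1 p, ∑ s ∈ range r, polySum2 L E p r f a h b z μ j s
      = (totalPts L p r f a h b : E) - (Fintype.card L : E) * (basePts L r h b : E)

/-- The arithmetic of the exponents. -/
def AQ : Prop :=
  ∀ (p r c F D : ℕ), p.Prime → r.Prime → p ≠ r → c.Prime → p * r ∣ c - 1 → 0 < F →
    ∀ (m n : ℕ) (a : Fin m → ℕ) (b : Fin n → ℕ), (∀ i, 0 < a i) → (∀ l, 0 < b l) → 1 ≤ D →
    D * (r * ∑ i, a i + p * ∑ l, b l) < p * r →
    ∀ j s : ℕ, 0 < j → j < p → s < r →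
      (∀ i, 0 < j * a i % p) ∧ (0 < s → ∀ l, 0 < s * b l % r) ∧
      ∃ j' : ℕ, j'.Coprime (p * r) ∧
        D * (∑ i, ∑ e ∈ range F, (j' * (r * (j * a i % p)) * c ^ e) % (p * r)
          + ∑ l, ∑ e ∈ range F, (j' * (p * (s * b l % r)) * c ^ e) % (p * r)) < F * (p * r)

end Pool.Agent.W528.HD
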